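import Pool.Agent.TH384.N4_AS1
import Pool.Agent.TH806.N4.Rel
import Pool.Agent.Y969.SM.Stm

set_option autoImplicit false

/-!
Project SX of helper969, job SX-FA (by helper739): the error of the model of the fourth power of
zeta in mean, after `Pool.Agent.TH384.N4_AS1` (helper384).
-/

namespace Pool.Agent.Y739.SX

open Finset Filter Topology MeasureTheory Complex MonoidAlgebra
open Pool.Agent.W184.NZ Pool.Agent.TH806 Pool.Agent.TH806.N4
open Pool.Agent.H306R2.SM (om cl Yf)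
open Pool.Agent.H262R4.TM (Rng Ck)
open Pool.Agent.H448R2.GC (cu cs ker XX)
open Pool.Agent.TH817.N4_ASM (PQ crude ev_one_re EV_zero HB log2pi A_cont PQ_cont pint W_eq)
open Pool.Agent.TH384.N4_AS1 (ck E1 E2 A1 A2 HA E1_eq E2_eq A_bd Df errE)

noncomputable section

theorem t_FA : ∃ k₀ : ℕ, ∀ k : ℕ, k₀ ≤ k → Pool.Agent.Y969.SM.S_FA k := by
  obtain ⟨k₀, hk₀⟩ := a_AFP (1 / 200) (by norm_num) (by norm_num)
  refine ⟨max k₀ 3, fun k hkk => ?_⟩
  have hk : 3 ≤ k := (le_max_right _ _).trans hkk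
  obtain ⟨CA, T₀, hCA, hA0⟩ := hk₀ k ((le_max_left _ _).trans hkk)
  have hA : HA (1 / 200) k CA T₀ := by
    intro T hT t ht1 ht2
    exact hA0 T hT t ht1 ht2 (ck (1 / 200) k T) (E1 (1 / 200) T) (E2 (1 / 200) T) rfl rfl rfl
  obtain ⟨ηB, hηB0, hηB1, hB⟩ := a_TB
  have hB : HB ηB := hB
  obtain ⟨c, hc0, hrange⟩ := ranges
  obtain ⟨J, hRg, _, hend, hVV⟩ := hrange 144 le_rfl
  have hBL : BL c 144 J := ⟨hc0, le_rfl, hRg, hend, hVV⟩
  obtain ⟨Ce, hCe, hE⟩ := errE (η := 1 / 200) (by norm_num) le_rfl hk hCA hA hηB0 hηB1 hB c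
  obtain ⟨_, g0, φ0, hG0⟩ := Pool.Agent.TH822.N4_MGKR.t_MG c 144 J 1 0 1 hBL le_rfl (by norm_num)
  obtain ⟨_, CW, _, hCW, hW⟩ := a_T4.2
  refine ⟨Ce + CW, by positivity, ?_⟩
  have hlogT : ∀ᶠ T : ℝ in atTop, 320 * (((1:ℕ):ℝ) + 1) * Real.log 144 ≤ ηB * Real.log T :=
    (Real.tendsto_log_atTop.const_mul_atTop hηB0).eventually_ge_atTop _
  filter_upwards [hE 1 le_rfl, hlogT, hW, eventually_ge_atTop (1:ℝ),
    Real.tendsto_log_atTop.eventually_ge_atTop 1300] with T hE hlT hW hT1 hL1300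
  intro κ hκ
  have hT0 : 0 < T := by linarith
  have hL0 : 0 < Real.log T := by linarith
  have hL1 : 1 ≤ Real.log T := by linarith
  have e1 := E1_eq (1 / 200) T
  have e2 := E2_eq (1 / 200) hT0
  obtain ⟨lp1, lp2⟩ := log2pi
  have hA1b : ∀ t, ‖A1 (1 / 200) k T t‖ ≤ T := fun t =>
    A_bd (by norm_num) hT0 hL0 (by rw [e1]; linarith) t
  have hA2b : ∀ t, ‖A2 (1 / 200) k T t‖ ≤ T := fun t =>
    A_bd (by norm_num) hT0 hL0 (by rw [e2]; linarith) t
  have hκ1 : 1 ≤ κ := by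
    have := hκ.1
    have h2 : (0:ℝ) < κ := lt_of_lt_of_le (by positivity) this
    exact_mod_cast h2
  have hκ0 : (0:ℝ) < κ := by exact_mod_cast hκ1
  have hδ : 0 < (κ:ℝ) / T := by positivity
  have r1 := (hE κ hκ 144 0 J g0 φ0 1 hG0 (by norm_num) hlT).1
  simp only [ev_one_re, EV_zero, mul_one] at r1
  have r2 := (hW κ hκ).2
  rw [W_eq] at r2
  simp only [mul_one] at r2
  have hF0 : ∀ t, Pool.Agent.Y969.SM.F0 k T t =
      PQ (riemannZeta (cl t)) (A1 (1 / 200) k T t) (A2 (1 / 200) k T t) := fun t => rfl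
  have hXz : ∀ t, Pool.Agent.Y969.SM.Xz t = Xz t := fun t => rfl
  have hXF : ∀ t, |Pool.Agent.Y969.SM.Xz t ^ 4 - Pool.Agent.Y969.SM.F0 k T t| =
      Df (1 / 200) k T t := by
    intro t
    rw [abs_sub_comm, hF0]
    rfl
  have hzc := Pool.Agent.H262R4.TM.TTW.zeta_cont
  have hA1c : Continuous fun t => A1 (1 / 200) k T t := A_cont _ _ _
  have hA2c : Continuous fun t => A2 (1 / 200) k T t := A_cont _ _ _
  have hPc : Continuous fun t => PQ (riemannZeta (cl t)) (A1 (1 / 200) k T t)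
      (A2 (1 / 200) k T t) := PQ_cont hzc hA1c hA2c
  have hzb4 : ∀ t, 0 ≤ t → ‖riemannZeta (cl t)‖ ^ 4 ≤ 24 ^ 4 * (1 + t) ^ 8 := by
    intro t ht
    have h1 := Pool.Agent.H262R4.TM.TTW.zeta_cl_bound t ht
    calc _ ≤ (24 * (1 + t) ^ 2) ^ 4 := pow_le_pow_left₀ (norm_nonneg _) h1 4
      _ = _ := by ring
  have hPb : ∀ t, 0 ≤ t → |PQ (riemannZeta (cl t)) (A1 (1 / 200) k T t) (A2 (1 / 200) k T t)| ≤
      (8 * T ^ 2 * 24 ^ 2) * (1 + t) ^ 8 := by
    intro t ht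
    have h1 := Pool.Agent.H262R4.TM.TTW.zeta_cl_bound t ht
    have ht1 : (1:ℝ) ≤ 1 + t := by linarith
    have h3 : ‖riemannZeta (cl t)‖ ^ 2 ≤ 24 ^ 2 * (1 + t) ^ 8 := by
      calc _ ≤ (24 * (1 + t) ^ 2) ^ 2 := pow_le_pow_left₀ (norm_nonneg _) h1 2
        _ = 24 ^ 2 * (1 + t) ^ 4 := by ring
        _ ≤ 24 ^ 2 * (1 + t) ^ 8 := by
          have := pow_le_pow_right₀ ht1 (show 4 ≤ 8 by norm_num)
          gcongr
    refine (crude (z := riemannZeta (cl t)) (hA1b t) (hA2b t)).trans ?_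
    calc 8 * T ^ 2 * ‖riemannZeta (cl t)‖ ^ 2 ≤ 8 * T ^ 2 * (24 ^ 2 * (1 + t) ^ 8) := by gcongr
      _ = _ := by ring
  have i4 : IntegrableOn (fun t => om κ (κ / T) t * Xz t ^ 4) (Set.Ioi 0) := by
    refine pint hδ (Xz_cont.pow 4) (C := 24 ^ 4) fun t ht => ?_
    have h0 : 0 ≤ Xz t ^ 4 := by have := Xz_nonneg t; positivity
    rw [abs_of_nonneg h0]
    exact hzb4 t ht
  have iP : IntegrableOn (fun t => om κ (κ / T) t *
      |PQ (riemannZeta (cl t)) (A1 (1 / 200) k T t) (A2 (1 / 200) k T t)|) (Set.Ioi 0) := by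
    refine pint hδ hPc.abs (C := 8 * T ^ 2 * 24 ^ 2) fun t ht => ?_
    rw [abs_abs]
    exact hPb t ht
  have iD : IntegrableOn (fun t => om κ (κ / T) t * Df (1 / 200) k T t) (Set.Ioi 0) := by
    have hDc : Continuous fun t => Df (1 / 200) k T t := by
      unfold Df
      exact (hPc.sub (hzc.norm.pow 4)).abs
    refine pint hδ hDc (C := 8 * T ^ 2 * 24 ^ 2 + 24 ^ 4) fun t ht => ?_
    unfold Df
    rw [abs_abs]
    have h7 := abs_sub (PQ (riemannZeta (cl t)) (A1 (1 / 200) k T t) (A2 (1 / 200) k T t))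
      (‖riemannZeta (cl t)‖ ^ 4)
    rw [abs_of_nonneg (by positivity : (0:ℝ) ≤ ‖riemannZeta (cl t)‖ ^ 4)] at h7
    have h8 := hPb t ht
    have h9 := hzb4 t ht
    calc _ ≤ _ := h7
      _ ≤ (8 * T ^ 2 * 24 ^ 2) * (1 + t) ^ 8 + 24 ^ 4 * (1 + t) ^ 8 := add_le_add h8 h9
      _ = _ := by ring
  have hL34 : Real.log T ^ 3 ≤ Real.log T ^ 4 := pow_le_pow_right₀ hL1 (by norm_num)
  have hL3 : 0 ≤ Real.log T ^ 3 := by positivity
  have hL4 : 0 ≤ Real.log T ^ 4 := by positivity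
  simp only [hXF]
  simp only [hF0, hXz]
  refine ⟨iD, iP, i4, ?_, ?_, ?_⟩
  · refine r1.trans ?_
    have := mul_nonneg hCW.le hL3
    linarith
  · have h1 : ∫ t in Set.Ioi (0:ℝ), om κ (κ / T) t *
        |PQ (riemannZeta (cl t)) (A1 (1 / 200) k T t) (A2 (1 / 200) k T t)| ≤
        (∫ t in Set.Ioi (0:ℝ), om κ (κ / T) t * Df (1 / 200) k T t) +
          ∫ t in Set.Ioi (0:ℝ), om κ (κ / T) t * Xz t ^ 4 := by
      rw [← integral_add iD i4]
      refine setIntegral_mono_on iP (iD.add i4) measurableSet_Ioi fun t ht => ?_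
      have ht0 : (0:ℝ) ≤ t := le_of_lt ht
      have ho := om_nn κ hδ ht0
      rw [← mul_add]
      refine mul_le_mul_of_nonneg_left ?_ ho
      have h0 : 0 ≤ Xz t ^ 4 := by have := Xz_nonneg t; positivity
      have h2 := abs_sub_abs_le_abs_sub (PQ (riemannZeta (cl t)) (A1 (1 / 200) k T t)
        (A2 (1 / 200) k T t)) (Xz t ^ 4)
      rw [abs_of_nonneg h0] at h2
      have h3 : Df (1 / 200) k T t = |PQ (riemannZeta (cl t)) (A1 (1 / 200) k T t)
        (A2 (1 / 200) k T t) - Xz t ^ 4| := rfl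
      rw [h3]
      linarith
    refine h1.trans ((add_le_add r1 r2).trans ?_)
    have := mul_le_mul_of_nonneg_left hL34 hCe.le
    linarith
  · refine r2.trans ?_
    have := mul_nonneg hCe.le hL4
    linarith

end

end Pool.Agent.Y739.SX
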